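import Mathlib
import Pool.Agent.H171R3.AK.Fin

set_option autoImplicit false

open Set H171AK

universe u v

namespace Pool.Agent.Results.MP_6bc951_gt.MaximalShort

/-- The Alexander–Kapovitch–Petrunin conjecture on obstructions to short extensions: a maximal short
map `f : Q → U` from a proper subset `Q` of a complete length `Alex(1)` space `L` to a complete
length `CAT(1)` space `U` is distance preserving, `Q` is isometric to the unit sphere of a Hilbert
space with the angle metric, some point of `L` is at distance `π/2` from all of `Q`, and no point of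
`U` is at distance `π/2` from all of `f(Q)`. -/
theorem result {L : Type u} {U : Type v} [MetricSpace L] [MetricSpace U]
    (hL : IsAlex1 L) (hU : IsCAT1 U) (Q : Set L) (hQ : Q ≠ univ) (f : Q → U)
    (hf : IsMaximalShort Q f) :
    (∃ (H : Type u) (_ : NormedAddCommGroup H) (_ : InnerProductSpace ℝ H) (_ : CompleteSpace H)
      (e : Q ≃ Metric.sphere (0 : H) 1),
        ∀ x y : Q, dist (x : L) (y : L) = Real.arccos (inner ℝ (e x : H) (e y : H))) ∧
    (∃ p : L, ∀ q : Q, dist p q = Real.pi / 2) ∧
    (∀ x y : Q, dist (f x) (f y) = dist (x : L) (y : L)) ∧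
    ¬ ∃ p' : U, ∀ q : Q, dist p' (f q) = Real.pi / 2 :=
  main hL hU Q hQ f hf

end Pool.Agent.Results.MP_6bc951_gt.MaximalShort
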